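import Pool.Agent.H82.RP.TC

/-!
# VSL: the sum of the densities over the sets of `s` positions, lower bound
-/

set_option autoImplicit false

open Finset Real ArithmeticFunction
open scoped Nat ArithmeticFunction.Moebius

namespace Pool.Agent.H16.RP

open Pool.Agent.H30.BV (NX)
open Pool.Agent.H31.MP (RS Rgh Pz Me Om UU)
open Pool.Agent.H82.RP

/-- double counting of the pairs (set of `s + 1` elements, element) -/
theorem dcount {α : Type*} [DecidableEq α] (T : Finset α) (s : ℕ) (f : Finset α → ℝ) :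
    ((s : ℝ) + 1) * ∑ H ∈ T.powersetCard (s + 1), f H =
      ∑ H ∈ T.powersetCard s, ∑ i ∈ T \ H, f (insert i H) := by
  have h1 : ((s : ℝ) + 1) * ∑ H ∈ T.powersetCard (s + 1), f H =
      ∑ H ∈ T.powersetCard (s + 1), ∑ i ∈ H, f H := by
    rw [Finset.mul_sum]
    apply Finset.sum_congr rfl
    intro H hH
    rw [Finset.sum_const, (Finset.mem_powersetCard.mp hH).2, nsmul_eq_mul]
    push_cast
    ring
  rw [h1, Finset.sum_sigma', Finset.sum_sigma']
  apply Finset.sum_bij' (fun (x : Σ _ : Finset α, α) _ => (⟨x.1.erase x.2, x.2⟩ : Σ _ : Finset α, α))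
    (fun (x : Σ _ : Finset α, α) _ => (⟨insert x.2 x.1, x.2⟩ : Σ _ : Finset α, α))
  · rintro ⟨H, i⟩ hx
    rw [Finset.mem_sigma, Finset.mem_powersetCard] at hx
    obtain ⟨⟨hHT, hc⟩, hi⟩ := hx
    simp only at hHT hc hi
    rw [Finset.mem_sigma, Finset.mem_powersetCard]
    refine ⟨⟨(Finset.erase_subset _ _).trans hHT, ?_⟩, ?_⟩
    · show (H.erase i).card = s
      rw [Finset.card_erase_of_mem hi, hc]
      simp
    · show i ∈ T \ H.erase i
      rw [Finset.mem_sdiff]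
      exact ⟨hHT hi, Finset.notMem_erase _ _⟩
  · rintro ⟨H, i⟩ hx
    rw [Finset.mem_sigma, Finset.mem_powersetCard] at hx
    obtain ⟨⟨hHT, hc⟩, hi⟩ := hx
    simp only at hHT hc hi
    rw [Finset.mem_sdiff] at hi
    rw [Finset.mem_sigma, Finset.mem_powersetCard]
    refine ⟨⟨?_, ?_⟩, ?_⟩
    · show insert i H ⊆ T
      exact Finset.insert_subset hi.1 hHT
    · show (insert i H).card = s + 1
      rw [Finset.card_insert_of_notMem hi.2, hc]
    · show i ∈ insert i H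
      exact Finset.mem_insert_self _ _
  · rintro ⟨H, i⟩ hx
    rw [Finset.mem_sigma] at hx
    have hi : i ∈ H := hx.2
    show (⟨insert i (H.erase i), i⟩ : Σ _ : Finset α, α) = ⟨H, i⟩
    rw [Finset.insert_erase hi]
  · rintro ⟨H, i⟩ hx
    rw [Finset.mem_sigma] at hx
    have hi : i ∈ T \ H := hx.2
    show (⟨(insert i H).erase i, i⟩ : Σ _ : Finset α, α) = ⟨H, i⟩
    rw [Finset.erase_insert (Finset.mem_sdiff.mp hi).2]
  · rintro ⟨H, i⟩ hx
    rw [Finset.mem_sigma] at hx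
    have hi : i ∈ H := hx.2
    show f H = f (insert i (H.erase i))
    rw [Finset.insert_erase hi]

/-- the coprime integers in `q` blocks -/
theorem block (W k q : ℕ) :
    ((Ico k (k + q * W)).filter (fun x => W.Coprime x)).card = q * W.totient := by
  induction q with
  | zero => simp
  | succ q ih =>
    have h1 : Ico k (k + (q + 1) * W) = Ico k (k + q * W) ∪ Ico (k + q * W) (k + q * W + W) := by
      rw [Finset.Ico_union_Ico_eq_Ico (by omega) (by omega)]
      congr 1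
      ring
    rw [h1, Finset.filter_union, Finset.card_union_of_disjoint, ih,
      Nat.filter_coprime_Ico_eq_totient]
    · ring
    · apply Finset.disjoint_filter_filter
      rw [Finset.disjoint_left]
      intro x hx hx'
      rw [Finset.mem_Ico] at hx hx'
      omega

theorem card_Ad (y₀ a m : ℕ) :
    (m / primorial y₀) * (primorial y₀).totient ≤ (Ad y₀ a m).card := by
  obtain ⟨W, hW⟩ : ∃ W, W = primorial y₀ := ⟨_, rfl⟩
  rw [← block (primorial y₀) (1 + a) (m / primorial y₀)]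
  have h1 : (Ico (1 + a) (1 + a + m / primorial y₀ * primorial y₀)).filter
      (fun x => (primorial y₀).Coprime x) ⊆ (Ad y₀ a m).image (fun i => 1 + pw a i) := by
    intro x hx
    rw [Finset.mem_filter, Finset.mem_Ico] at hx
    obtain ⟨⟨h2, h3⟩, h4⟩ := hx
    have h5 : m / primorial y₀ * primorial y₀ ≤ m := Nat.div_mul_le_self _ _
    rw [Finset.mem_image]
    refine ⟨⟨x - (1 + a), by omega⟩, ?_, ?_⟩
    · unfold Ad
      rw [Finset.mem_filter]
      refine ⟨Finset.mem_univ _, ?_⟩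
      have h6 : 1 + pw a (⟨x - (1 + a), by omega⟩ : Fin m) = x := by
        unfold pw
        simp only
        omega
      rw [h6]
      exact h4.symm
    · unfold pw
      simp only
      omega
  exact (Finset.card_le_card h1).trans Finset.card_image_le

theorem card_Ad' (y₀ a m : ℕ) :
    ((primorial y₀).totient : ℝ) / primorial y₀ * m - (primorial y₀).totient ≤
      ((Ad y₀ a m).card : ℝ) := by
  have hW : (0 : ℝ) < (primorial y₀ : ℝ) := by exact_mod_cast primorial_pos y₀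
  have h1 : (((m / primorial y₀) * (primorial y₀).totient : ℕ) : ℝ) ≤ ((Ad y₀ a m).card : ℝ) := by
    exact_mod_cast card_Ad y₀ a m
  have h2 : (m : ℝ) / primorial y₀ - 1 ≤ ((m / primorial y₀ : ℕ) : ℝ) := by
    have h3 := Nat.lt_floor_add_one ((m : ℝ) / (primorial y₀ : ℝ))
    rw [Nat.floor_div_eq_div] at h3
    linarith
  have h4 : (0 : ℝ) ≤ ((primorial y₀).totient : ℝ) := Nat.cast_nonneg _
  have h5 := mul_le_mul_of_nonneg_right h2 h4
  push_cast at h1
  calc _ = ((m : ℝ) / primorial y₀ - 1) * ((primorial y₀).totient : ℝ) := by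
        field_simp
    _ ≤ _ := h5.trans h1

theorem VS_empty (y₀ : ℕ) (z : ℝ) : VS y₀ z ∅ = 1 := by
  unfold VS
  apply Finset.prod_eq_one
  intro p _
  have : nS ∅ p = 0 := by
    unfold nS
    simp
  rw [this]
  simp

theorem ps_insert {m : ℕ} (a : ℕ) (i : Fin m) (H : Finset (Fin m)) :
    ps a (insert i H) = insert (pw a i) (ps a H) := by
  unfold ps
  rw [Finset.image_insert]

theorem pw_inj {m : ℕ} (a : ℕ) : Function.Injective (pw a : Fin m → ℕ) := by
  intro i j h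
  unfold pw at h
  apply Fin.ext
  omega

theorem notMem_ps {m : ℕ} (a : ℕ) (i : Fin m) (H : Finset (Fin m)) (h : i ∉ H) :
    pw a i ∉ ps a H := by
  unfold ps
  intro h1
  rw [Finset.mem_image] at h1
  obtain ⟨j, hj, hji⟩ := h1
  rw [pw_inj a hji] at hj
  exact h hj

/-- one step -/
theorem step (h1 : T_VRI) (K y₀ m a s : ℕ) (z : ℝ) (hs : s < K) (hy : 2 * K + 4 ≤ y₀) :
    (∑ H ∈ (Ad y₀ a m).powersetCard s, VS y₀ z (ps a H)) *
      ((1 - 2 * K / y₀) * (((Ad y₀ a m).card : ℝ) - K) *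
        ∏ p ∈ Pz y₀ z, (1 - 1 / (p : ℝ))) ≤
      ((s : ℝ) + 1) * ∑ H ∈ (Ad y₀ a m).powersetCard (s + 1), VS y₀ z (ps a H) := by
  rw [dcount, Finset.sum_mul]
  apply Finset.sum_le_sum
  intro H hH
  obtain ⟨hHT, hc⟩ := Finset.mem_powersetCard.mp hH
  have hcard : (ps a H).card ≤ K := by
    unfold ps
    exact Finset.card_image_le.trans (by omega)
  have hpos : 0 < VS y₀ z (ps a H) := by
    obtain ⟨e, he⟩ := Infinite.exists_notMem_finset (ps a H)
    exact (h1 K y₀ z (ps a H) e hcard hy he).1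
  have hy' : (0 : ℝ) < y₀ := by
    have : 0 < y₀ := by omega
    exact_mod_cast this
  have hfac : (0 : ℝ) ≤ 1 - 2 * K / y₀ := by
    rw [sub_nonneg, div_le_one hy']
    have : 2 * K ≤ y₀ := by omega
    exact_mod_cast this
  have hQ : (0 : ℝ) ≤ ∏ p ∈ Pz y₀ z, (1 - 1 / (p : ℝ)) := by
    apply Finset.prod_nonneg
    intro p hp
    unfold Pz at hp
    rw [Finset.mem_filter] at hp
    have : (1 : ℝ) ≤ p := by exact_mod_cast hp.2.1.one_le
    rw [sub_nonneg, div_le_one (by linarith)]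
    exact this
  have hlow : ∀ i ∈ Ad y₀ a m \ H,
      (1 - 2 * K / y₀) * (VS y₀ z (ps a H) * ∏ p ∈ Pz y₀ z, (1 - 1 / (p : ℝ))) ≤
        VS y₀ z (ps a (insert i H)) := by
    intro i hi
    rw [ps_insert]
    exact (h1 K y₀ z (ps a H) (pw a i) hcard hy
      (notMem_ps a i H (Finset.mem_sdiff.mp hi).2)).2.2
  have hsum := Finset.card_nsmul_le_sum _ _ _ hlow
  refine le_trans ?_ hsum
  rw [nsmul_eq_mul, Finset.card_sdiff_of_subset hHT, hc]
  have hnn : 0 ≤ (1 - 2 * (K : ℝ) / y₀) *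
      (VS y₀ z (ps a H) * ∏ p ∈ Pz y₀ z, (1 - 1 / (p : ℝ))) :=
    mul_nonneg hfac (mul_nonneg hpos.le hQ)
  have hcle : s ≤ (Ad y₀ a m).card := by
    rw [← hc]
    exact Finset.card_le_card hHT
  rw [Nat.cast_sub hcle]
  have hsK : (s : ℝ) ≤ K := by exact_mod_cast hs.le
  calc _ = (((Ad y₀ a m).card : ℝ) - K) * ((1 - 2 * (K : ℝ) / y₀) *
      (VS y₀ z (ps a H) * ∏ p ∈ Pz y₀ z, (1 - 1 / (p : ℝ)))) := by ring
    _ ≤ _ := mul_le_mul_of_nonneg_right (by linarith) hnn

theorem pf_VSL (h1 : T_VRI) (hVV : Pool.Agent.H31.MP.T_VV) : T_VSL := by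
  intro K η hη hη1
  obtain ⟨y₁, hy₁⟩ := exists_nat_ge (max (2 * (K : ℝ) + 4) (4 * K / η))
  refine ⟨y₁, fun y₀ hy t δ H₀ ht hδ => ?_⟩
  have hyr : (y₁ : ℝ) ≤ y₀ := by exact_mod_cast hy
  have hyA : 2 * (K : ℝ) + 4 ≤ y₀ := ((le_max_left _ _).trans hy₁).trans hyr
  have hyB : 4 * (K : ℝ) / η ≤ y₀ := ((le_max_right _ _).trans hy₁).trans hyr
  have hyN : 2 * K + 4 ≤ y₀ := by exact_mod_cast hyA
  have hypos : (0 : ℝ) < y₀ := by
    have : (0 : ℝ) ≤ K := Nat.cast_nonneg K
    linarith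
  have hW : (0 : ℝ) < (primorial y₀ : ℝ) := by exact_mod_cast primorial_pos y₀
  have hφ : (0 : ℝ) < ((primorial y₀).totient : ℝ) := by
    exact_mod_cast Nat.totient_pos.mpr (primorial_pos y₀)
  obtain ⟨r, hr⟩ : ∃ r : ℝ, r = ((primorial y₀).totient : ℝ) / primorial y₀ := ⟨_, rfl⟩
  have hr0 : 0 < r := by rw [hr]; positivity
  obtain ⟨B, hB⟩ : ∃ B : ℝ, B = 2 / η * ((primorial y₀).totient + K) / r := ⟨_, rfl⟩
  have e1 : ∀ᶠ X : ℝ in Filter.atTop, (y₀ : ℝ) ≤ X ^ δ :=
    (tendsto_rpow_atTop hδ).eventually_ge_atTop _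
  have e2 : ∀ᶠ X : ℝ in Filter.atTop, B / t ≤ Real.log X :=
    Real.tendsto_log_atTop.eventually_ge_atTop _
  obtain ⟨X₀, hX₀⟩ := Filter.eventually_atTop.mp (e1.and e2)
  refine ⟨X₀, fun X hX m a s hs _ hm => ?_⟩
  obtain ⟨hz, hlog⟩ := hX₀ X hX
  obtain ⟨z, hzd⟩ : ∃ z : ℝ, z = X ^ δ := ⟨_, rfl⟩
  rw [← hzd] at hz ⊢
  obtain ⟨Q, hQd⟩ : ∃ Q : ℝ, Q = ∏ p ∈ Pz y₀ z, (1 - 1 / (p : ℝ)) := ⟨_, rfl⟩
  have hMe : Q * r = Me z := by
    rw [hQd, hr]
    exact (hVV 1 y₀ z (fun _ => 0) le_rfl (by omega) hz).1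
  have hQ : 0 ≤ Q := by
    rw [hQd]
    apply Finset.prod_nonneg
    intro p hp
    unfold Pz at hp
    rw [Finset.mem_filter] at hp
    have : (1 : ℝ) ≤ p := by exact_mod_cast hp.2.1.one_le
    rw [sub_nonneg, div_le_one (by linarith)]
    exact this
  have hmB : B ≤ m := by
    rw [div_le_iff₀ ht] at hlog
    linarith
  have hm' : 2 / η * ((primorial y₀).totient + K) ≤ m * r := by
    rw [hB, div_le_iff₀ hr0] at hmB
    exact hmB
  have hm'' : ((primorial y₀).totient : ℝ) + K ≤ η / 2 * (m * r) := by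
    have := mul_le_mul_of_nonneg_left hm' (by positivity : 0 ≤ η / 2)
    calc ((primorial y₀).totient : ℝ) + K = η / 2 * (2 / η * ((primorial y₀).totient + K)) := by
          field_simp
      _ ≤ _ := this
  have hfac : 1 - η / 2 ≤ 1 - 2 * (K : ℝ) / y₀ := by
    have : 2 * (K : ℝ) / y₀ ≤ η / 2 := by
      rw [div_le_iff₀ hypos]
      rw [div_le_iff₀ hη] at hyB
      linarith
    linarith
  have hAd := card_Ad' y₀ a m
  rw [← hr] at hAd
  have hmr : 0 ≤ m * r := mul_nonneg (Nat.cast_nonneg m) hr0.le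
  have hdiff : (1 - η / 2) * (m * r) ≤ ((Ad y₀ a m).card : ℝ) - K := by
    have e3 : r * m = m * r := mul_comm _ _
    have e4 : (1 - η / 2) * (m * r) = m * r - η / 2 * (m * r) := by ring
    rw [e4]
    linarith
  have hL : (1 - η) * (m * Me z) ≤
      (1 - 2 * (K : ℝ) / y₀) * (((Ad y₀ a m).card : ℝ) - K) * Q := by
    rw [← hMe]
    have h3 : (1 - η / 2) * ((1 - η / 2) * (m * r)) ≤
        (1 - 2 * (K : ℝ) / y₀) * (((Ad y₀ a m).card : ℝ) - K) :=
      mul_le_mul hfac hdiff (mul_nonneg (by linarith) hmr) (by linarith)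
    have h4 : (1 - η) * (m * r) ≤ (1 - η / 2) * ((1 - η / 2) * (m * r)) := by
      have e5 : (1 - η / 2) * ((1 - η / 2) * (m * r)) =
          (1 - η) * (m * r) + η ^ 2 * (m * r) / 4 := by ring
      have e6 := mul_nonneg (sq_nonneg η) hmr
      rw [e5]
      linarith
    calc (1 - η) * (m * (Q * r)) = (1 - η) * (m * r) * Q := by ring
      _ ≤ _ := mul_le_mul_of_nonneg_right (h4.trans h3) hQ
  have hMe0 : 0 ≤ Me z := by
    rw [← hMe]
    exact mul_nonneg hQ hr0.le
  have hL0 : 0 ≤ (1 - η) * (m * Me z) :=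
    mul_nonneg (by linarith) (mul_nonneg (Nat.cast_nonneg m) hMe0)
  clear hX hlog hm hmB
  induction s with
  | zero =>
    rw [Finset.powersetCard_zero, Finset.sum_singleton]
    have : ps a (∅ : Finset (Fin m)) = ∅ := by
      unfold ps
      simp
    rw [this, VS_empty]
    simp
  | succ s ih =>
    have ih' := ih (by omega)
    have hst := step h1 K y₀ m a s z (by omega) hyN
    rw [← hQd] at hst
    have hA0 : 0 ≤ ∑ H ∈ (Ad y₀ a m).powersetCard s, VS y₀ z (ps a H) :=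
      le_trans (by positivity) ih'
    have h5 : (∑ H ∈ (Ad y₀ a m).powersetCard s, VS y₀ z (ps a H)) *
        ((1 - η) * (m * Me z)) ≤
        ((s : ℝ) + 1) * ∑ H ∈ (Ad y₀ a m).powersetCard (s + 1), VS y₀ z (ps a H) :=
      (mul_le_mul_of_nonneg_left hL hA0).trans hst
    have h6 := (mul_le_mul_of_nonneg_right ih' hL0).trans h5
    have hs1 : (0 : ℝ) < (s : ℝ) + 1 := by positivity
    rw [Nat.factorial_succ]
    push_cast
    rw [pow_succ, div_le_iff₀ (by positivity)]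
    have hfs : (0 : ℝ) < (s ! : ℝ) := by exact_mod_cast Nat.factorial_pos s
    rw [div_mul_eq_mul_div, div_le_iff₀ hfs] at h6
    calc _ ≤ _ := h6
      _ = _ := by ring

end Pool.Agent.H16.RP
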